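import Pool.Agent.U588.BM.Geo

set_option autoImplicit false

/-!
# Project BM, package NS: no saddle connections and no periodic chords outside class zero
-/

open Set Filter Topology ComplexConjugate

namespace Pool.Agent.U588.BM.NS

open Pool.Agent.U856.BM Relation

section ps

variable (a b v α : ℝ) (q : ℕ)

/-- the next chord after the reflection in the side `j` -/
noncomputable def nx (z : St × ℝ) (j : Fin 5) : St × ℝ :=
  (rs α j z.1, z.2 - 2 * oS a b v j * cr (dd a b) (G z.1 (nS α j)))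

/-- the side `s` occurs at the chord `z` -/
def O (Z : Set (St × ℝ)) (Ex En : St × ℝ → Fin 5 → Prop) (s : Fin 5) (z : St × ℝ) : Prop :=
  (Exit a b v α z.1 z.2 s ∧ nx a b v α z s ∈ Z) ∨ (∃ k, Ex z k ∧ onSide k s) ∨ ∃ k, En z k ∧ onSide k s

/-- the set of the chords of a path -/
structure PS (Z : Set (St × ℝ)) (Ex En : St × ℝ → Fin 5 → Prop) : Prop where
  al : ∀ z ∈ Z, Al q z.1
  ex : ∀ z ∈ Z, (∃ j, Exit a b v α z.1 z.2 j ∧ nx a b v α z j ∈ Z) ∨ ∃ k, Ex z k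
  exA : ∀ z k, Ex z k → AtExit a b v α z k
  en : ∀ z ∈ Z, (∃ z' ∈ Z, ∃ j, Exit a b v α z'.1 z'.2 j ∧ z = nx a b v α z' j) ∨ ∃ k, En z k
  enA : ∀ z k, En z k → AtEntry a b v α z k
  o0 : ∀ z ∈ Z, O a b v α Z Ex En 0 z → LA a b z.1.1 ∧ ∃ z' ∈ Z, z'.1.1 ^ 2 = conj (z.1.1 ^ 2)
  o1 : ∀ z ∈ Z, O a b v α Z Ex En 1 z → BA a b z.1.1 ∧ ∃ z' ∈ Z, z'.1.1 ^ 2 = conj (z.1.1 ^ 2)
  conn : ∀ P : St × ℝ → Prop, (∀ z ∈ Z, ∀ j, Exit a b v α z.1 z.2 j → nx a b v α z j ∈ Z →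
    (P z ↔ P (nx a b v α z j))) → (∃ z ∈ Z, P z) → ∀ z ∈ Z, P z

end ps

variable {a b v α : ℝ} {q : ℕ} {Z : Set (St × ℝ)} {Ex En : St × ℝ → Fin 5 → Prop}

theorem side_cases (k : Fin 5) : (onSide k 0 ∨ onSide k 1) ∨ k = 3 ∨ k = 4 := by
  fin_cases k <;> simp [onSide]

theorem on01 (k : Fin 5) (h : k = 0 ∨ k = 1) : onSide k 0 := by
  rcases h with rfl | rfl <;> simp [onSide]

theorem fwd (h : PS a b v α q Z Ex En) (z : St × ℝ) (hz : z ∈ Z)
    (h3 : dt (dd a b) (G z.1 (nS α 3)) < 0) :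
    O a b v α Z Ex En 0 z ∨ O a b v α Z Ex En 1 z ∨ (0 < E1 a b z.1 ∧ nx a b v α z 2 ∈ Z) ∨
      (0 < E2 a b z.1 ∧ nx a b v α z 4 ∈ Z) := by
  rcases h.ex z hz with ⟨j, hj, hn⟩ | ⟨k, hk⟩
  · have hp := hj.1
    rcases (show j = 0 ∨ j = 1 ∨ j = 2 ∨ j = 3 ∨ j = 4 by fin_cases j <;> simp) with
      rfl | rfl | rfl | rfl | rfl
    · exact Or.inl (Or.inl ⟨hj, hn⟩)
    · exact Or.inr (Or.inl (Or.inl ⟨hj, hn⟩))
    · rw [dn2] at hp
      exact Or.inr (Or.inr (Or.inl ⟨hp, hn⟩))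
    · exact absurd hp (not_lt.mpr h3.le)
    · rw [dn4] at hp
      exact Or.inr (Or.inr (Or.inr ⟨hp, hn⟩))
  · have hA := h.exA z k hk
    rcases side_cases k with (hs | hs) | rfl | rfl
    · exact Or.inl (Or.inr (Or.inl ⟨k, hk, hs⟩))
    · exact Or.inr (Or.inl (Or.inr (Or.inl ⟨k, hk, hs⟩)))
    · exact absurd hA.2.1 (not_lt.mpr h3.le)
    · exact absurd hA.2.2 (not_lt.mpr h3.le)

theorem bwd (h : PS a b v α q Z Ex En) (z : St × ℝ) (hz : z ∈ Z)
    (h3 : 0 < dt (dd a b) (G z.1 (nS α 3))) :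
    (∃ z' ∈ Z, z'.1.1 ^ 2 = z.1.1 ^ 2 ∧ (O a b v α Z Ex En 0 z' ∨ O a b v α Z Ex En 1 z')) ∨
      ∃ z' ∈ Z, z'.1.1 ^ 2 = z.1.1 ^ 2 ∧
        ((E1 a b z.1 = -E1 a b z'.1 ∧ E2 a b z.1 = E2 a b z'.1 ∧ 0 < E1 a b z'.1) ∨
          (E1 a b z.1 = E1 a b z'.1 ∧ E2 a b z.1 = -E2 a b z'.1 ∧ 0 < E2 a b z'.1)) := by
  rcases h.en z hz with ⟨z', hz', j, hj, rfl⟩ | ⟨k, hk⟩
  · have hp := hj.1
    rcases (show j = 0 ∨ j = 1 ∨ j = 2 ∨ j = 3 ∨ j = 4 by fin_cases j <;> simp) with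
      rfl | rfl | rfl | rfl | rfl
    · exact Or.inl ⟨z', hz', (sq_rs α 0 (by decide) z'.1).symm, Or.inl (Or.inl ⟨hj, hz⟩)⟩
    · exact Or.inl ⟨z', hz', (sq_rs α 1 (by decide) z'.1).symm, Or.inr (Or.inl ⟨hj, hz⟩)⟩
    · rw [dn2] at hp
      exact Or.inr ⟨z', hz', (sq_rs α 2 (by decide) z'.1).symm, Or.inl ⟨E1_2 a b α z'.1, E2_2 a b α z'.1, hp⟩⟩
    · exfalso
      have : dt (dd a b) (G (nx a b v α z' 3).1 (nS α 3)) = -dt (dd a b) (G z'.1 (nS α 3)) :=
        dt_rs_self _ _ _ _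
      linarith
    · rw [dn4] at hp
      exact Or.inr ⟨z', hz', (sq_rs α 4 (by decide) z'.1).symm, Or.inr ⟨E1_4 a b α z'.1, E2_4 a b α z'.1, hp⟩⟩
  · have hA := h.enA z k hk
    rcases side_cases k with (hs | hs) | rfl | rfl
    · exact Or.inl ⟨z, hz, rfl, Or.inl (Or.inr (Or.inr ⟨k, hk, hs⟩))⟩
    · exact Or.inl ⟨z, hz, rfl, Or.inr (Or.inr (Or.inr ⟨k, hk, hs⟩))⟩
    · exact absurd hA.2.1 (not_lt.mpr h3.le)
    · exact absurd hA.2.2 (not_lt.mpr h3.le)

theorem P2 (h : PS a b v α q Z Ex En) (hs : 0 < Real.sin α) (hc : 0 < Real.cos α)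
    (hne : ∀ z ∈ Z, dt (dd a b) (G z.1 (nS α 3)) ≠ 0) (z : St × ℝ) (hz : z ∈ Z) :
    ∃ z' ∈ Z, z'.1.1 ^ 2 = z.1.1 ^ 2 ∧ (O a b v α Z Ex En 0 z' ∨ O a b v α Z Ex En 1 z') := by
  rcases lt_or_gt_of_ne (hne z hz) with h3 | h3
  · rcases fwd h z hz h3 with ho | ho | ⟨hp, hn⟩ | ⟨hp, hn⟩
    · exact ⟨z, hz, rfl, Or.inl ho⟩
    · exact ⟨z, hz, rfl, Or.inr ho⟩
    · have e1 : E1 a b (nx a b v α z 2).1 = -E1 a b z.1 := E1_2 a b α z.1
      have e2 : E2 a b (nx a b v α z 2).1 = E2 a b z.1 := E2_2 a b α z.1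
      rw [dn3] at h3
      have h4 : E2 a b z.1 < 0 := by
        by_contra hcon
        push Not at hcon
        have := mul_pos hs hp
        have := mul_nonneg hc.le hcon
        linarith
      have h5 : dt (dd a b) (G (nx a b v α z 2).1 (nS α 3)) < 0 := by
        rw [dn3, e1, e2]
        have := mul_pos hs hp
        have := mul_neg_of_pos_of_neg hc h4
        linarith
      rcases fwd h _ hn h5 with ho | ho | ⟨hp', -⟩ | ⟨hp', -⟩
      · exact ⟨_, hn, sq_rs α 2 (by decide) z.1, Or.inl ho⟩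
      · exact ⟨_, hn, sq_rs α 2 (by decide) z.1, Or.inr ho⟩
      · exfalso; rw [e1] at hp'; linarith
      · exfalso; rw [e2] at hp'; linarith
    · have e1 : E1 a b (nx a b v α z 4).1 = E1 a b z.1 := E1_4 a b α z.1
      have e2 : E2 a b (nx a b v α z 4).1 = -E2 a b z.1 := E2_4 a b α z.1
      rw [dn3] at h3
      have h4 : E1 a b z.1 < 0 := by
        by_contra hcon
        push Not at hcon
        have := mul_pos hc hp
        have := mul_nonneg hs.le hcon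
        linarith
      have h5 : dt (dd a b) (G (nx a b v α z 4).1 (nS α 3)) < 0 := by
        rw [dn3, e1, e2]
        have := mul_pos hc hp
        have := mul_neg_of_pos_of_neg hs h4
        linarith
      rcases fwd h _ hn h5 with ho | ho | ⟨hp', -⟩ | ⟨hp', -⟩
      · exact ⟨_, hn, sq_rs α 4 (by decide) z.1, Or.inl ho⟩
      · exact ⟨_, hn, sq_rs α 4 (by decide) z.1, Or.inr ho⟩
      · exfalso; rw [e1] at hp'; linarith
      · exfalso; rw [e2] at hp'; linarith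
  · rcases bwd h z hz h3 with ho | ⟨z', hz', e, ⟨e1, e2, hp⟩ | ⟨e1, e2, hp⟩⟩
    · exact ho
    · rw [dn3, e1, e2] at h3
      have h4 : 0 < E2 a b z'.1 := by
        by_contra hcon
        push Not at hcon
        have := mul_pos hs hp
        have : Real.cos α * E2 a b z'.1 ≤ 0 := mul_nonpos_of_nonneg_of_nonpos hc.le hcon
        linarith
      have h5 : 0 < dt (dd a b) (G z'.1 (nS α 3)) := by
        rw [dn3]
        have := mul_pos hs hp
        have := mul_pos hc h4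
        linarith
      rcases bwd h z' hz' h5 with ⟨y, hy, ey, ho⟩ | ⟨y, hy, ey, ⟨f1, f2, hp'⟩ | ⟨f1, f2, hp'⟩⟩
      · exact ⟨y, hy, ey.trans e, ho⟩
      · exfalso; linarith
      · exfalso; linarith
    · rw [dn3, e1, e2] at h3
      have h4 : 0 < E1 a b z'.1 := by
        by_contra hcon
        push Not at hcon
        have := mul_pos hc hp
        have : Real.sin α * E1 a b z'.1 ≤ 0 := mul_nonpos_of_nonneg_of_nonpos hs.le hcon
        linarith
      have h5 : 0 < dt (dd a b) (G z'.1 (nS α 3)) := by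
        rw [dn3]
        have := mul_pos hs h4
        have := mul_pos hc hp
        linarith
      rcases bwd h z' hz' h5 with ⟨y, hy, ey, ho⟩ | ⟨y, hy, ey, ⟨f1, f2, hp'⟩ | ⟨f1, f2, hp'⟩⟩
      · exact ⟨y, hy, ey.trans e, ho⟩
      · exfalso; linarith
      · exfalso; linarith

/-! ### time reversal -/

theorem G_rev (z : St × ℝ) (x : ℂ) : G (rev z).1 x = -G z.1 x := by
  simp only [G, rev, neg_mul]
  rfl

theorem dt_rev (z : St × ℝ) (x : ℂ) : dt (dd a b) (G (rev z).1 x) = -dt (dd a b) (G z.1 x) := by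
  rw [G_rev, dt_neg]

theorem uu_rev (z : St × ℝ) (x : ℂ) : uu a b (rev z).1 x = -uu a b z.1 x := by
  unfold uu
  rw [G_rev, cr_neg]

theorem revExit (hc : Real.cos α ≠ 0) (hs : Real.sin α ≠ 0) (z : St × ℝ) (j : Fin 5)
    (h : Exit a b v α z.1 z.2 j) :
    Exit a b v α (rev (nx a b v α z j)).1 (rev (nx a b v α z j)).2 j := by
  obtain ⟨h1, h2, h3⟩ := h
  have e1 : uu a b (nx a b v α z j).1 (vS a b v α j) = _ := uu_rs1 a b v α hc hs j z.1
  have e2 : uu a b (nx a b v α z j).1 (vS a b v α (j + 1)) = _ := uu_rs2 a b v α hc hs j z.1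
  have e3 : dt (dd a b) (G (nx a b v α z j).1 (nS α j)) = -dt (dd a b) (G z.1 (nS α j)) :=
    dt_rs_self _ _ _ _
  have e4 : (rev (nx a b v α z j)).2 = -(z.2 - 2 * oS a b v j * cr (dd a b) (G z.1 (nS α j))) := rfl
  refine ⟨?_, ?_, ?_⟩
  · rw [dt_rev, e3]; linarith
  · rw [uu_rev, uu_rev, e1, e2, e4, min_neg_neg, max_sub_sub_right]
    linarith
  · rw [uu_rev, uu_rev, e1, e2, e4, max_neg_neg, min_sub_sub_right]
    linarith

theorem rev4 (z : St × ℝ) : (rs α 4 (rev (nx a b v α z 4)).1,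
    (rev (nx a b v α z 4)).2 - 2 * oS a b v 4 * cr (dd a b) (G (rev (nx a b v α z 4)).1 (nS α 4))) =
      rev z := by
  obtain ⟨⟨w, τ⟩, u⟩ := z
  cases τ <;> simp [nx, rev, rs, nS, oS]

/-- the GB property for a state and a transversal coordinate -/
def GBp (a b v α : ℝ) (i : St) (u : ℝ) : Prop :=
  (∀ k, AtExit a b v α (i, u) k → k = 0 ∨ k = 1) ∧
  ∀ j, Exit a b v α i u j → j = 0 ∨ (j = 4 ∧
    (∀ k, AtExit a b v α (rs α 4 i, u - 2 * oS a b v 4 * cr (dd a b) (G i (nS α 4))) k → k = 0 ∨ k = 1) ∧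
    ∀ j', Exit a b v α (rs α 4 i) (u - 2 * oS a b v 4 * cr (dd a b) (G i (nS α 4))) j' → j' = 0)

theorem P3 (h : PS a b v α q Z Ex En) (hc : Real.cos α ≠ 0) (hs : Real.sin α ≠ 0)
    (hGB : ∀ (i : St) (u : ℝ), Al q i →
      |dt (dd a b) (G i Complex.I)| ≤ 0.7 * |dt (dd a b) (G i 1)| → dt (dd a b) (G i (nS α 3)) < 0 →
      min (uu a b i (vS a b v α 3)) (uu a b i (vS a b v α 4)) ≤ u →
      u ≤ max (uu a b i (vS a b v α 3)) (uu a b i (vS a b v α 4)) → GBp a b v α i u)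
    (hRE : ∀ z : St × ℝ, Al q z.1 → Al q (rev z).1 ∧
      ∀ k, AtEntry a b v α z k → AtExit a b v α (rev z) k)
    (hcut : ∃ z ∈ Z, Exit a b v α z.1 z.2 3 ∧ nx a b v α z 3 ∈ Z)
    (z0 : St × ℝ) (hz0 : z0 ∈ Z) (hsh : Sh a b z0.1.1) : LA a b z0.1.1 := by
  by_contra hno
  have noO : ∀ z ∈ Z, z.1.1 ^ 2 = z0.1.1 ^ 2 → ¬ O a b v α Z Ex En 0 z :=
    fun z hz e ho => hno (LA_sq e (h.o0 z hz ho).1)
  have clA : ∀ z ∈ Z, Exit a b v α z.1 z.2 3 → nx a b v α z 3 ∈ Z →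
      (nx a b v α z 3).1.1 ^ 2 = z0.1.1 ^ 2 → False := by
    intro y hy hye hz e
    obtain ⟨z, hzdef⟩ : ∃ z, z = nx a b v α y 3 := ⟨_, rfl⟩
    have e1 : uu a b (nx a b v α y 3).1 (vS a b v α 3) = _ := uu_rs1 a b v α hc hs 3 y.1
    have e2 : uu a b (nx a b v α y 3).1 (vS a b v α (3 + 1)) = _ := uu_rs2 a b v α hc hs 3 y.1
    have e3 : dt (dd a b) (G (nx a b v α y 3).1 (nS α 3)) = -dt (dd a b) (G y.1 (nS α 3)) :=
      dt_rs_self _ _ _ _
    have e4 : (nx a b v α y 3).2 = y.2 - 2 * oS a b v 3 * cr (dd a b) (G y.1 (nS α 3)) := rfl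
    obtain ⟨g1, g2, g3⟩ := hye
    have e5 : (4 : Fin 5) = 3 + 1 := rfl
    have gb := hGB (nx a b v α y 3).1 (nx a b v α y 3).2 (h.al _ hz) (sh_E (Sh_sq e.symm hsh))
      (by rw [e3]; linarith)
      (by rw [e5, e1, e2, e4, min_sub_sub_right]; linarith)
      (by rw [e5, e1, e2, e4, max_sub_sub_right]; linarith)
    rw [← hzdef] at gb hz e
    rcases h.ex z hz with ⟨j, hj, hn⟩ | ⟨k, hk⟩
    · rcases gb.2 j hj with rfl | ⟨rfl, k1, k2⟩
      · exact noO z hz e (Or.inl ⟨hj, hn⟩)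
      · have e6 : (nx a b v α z 4).1.1 ^ 2 = z0.1.1 ^ 2 := (sq_rs α 4 (by decide) z.1).trans e
        rcases h.ex _ hn with ⟨j', hj', hn'⟩ | ⟨k, hk⟩
        · have := k2 j' hj'
          subst this
          exact noO _ hn e6 (Or.inl ⟨hj', hn'⟩)
        · have := k1 k (h.exA _ k hk)
          exact noO _ hn e6 (Or.inr (Or.inl ⟨k, hk, on01 k this⟩))
    · exact noO z hz e (Or.inr (Or.inl ⟨k, hk, on01 k (gb.1 k (h.exA z k hk))⟩))
  have clB : ∀ z ∈ Z, z.1.1 ^ 2 = z0.1.1 ^ 2 → Exit a b v α z.1 z.2 3 → False := by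
    intro z hz e hze
    obtain ⟨g1, g2, g3⟩ := hze
    have e5 : (4 : Fin 5) = 3 + 1 := rfl
    have gb := hGB (rev z).1 (rev z).2 (hRE z (h.al z hz)).1
      (by
        have hS : Sh a b (rev z).1.1 := Sh_sq (w' := z0.1.1) (by simp [rev, e]) hsh
        exact sh_E hS)
      (by rw [dt_rev]; linarith)
      (by
        rw [e5, uu_rev, uu_rev, min_neg_neg]
        show _ ≤ -z.2
        linarith)
      (by
        rw [e5, uu_rev, uu_rev, max_neg_neg]
        show -z.2 ≤ _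
        linarith)
    rcases h.en z hz with ⟨z', hz', j, hj, rfl⟩ | ⟨k, hk⟩
    · have hr := revExit hc hs z' j hj
      rcases gb.2 j hr with rfl | ⟨rfl, k1, k2⟩
      · exact noO z' hz' ((sq_rs α 0 (by decide) z'.1).symm.trans e) (Or.inl ⟨hj, hz⟩)
      · have e' : z'.1.1 ^ 2 = z0.1.1 ^ 2 := (sq_rs α 4 (by decide) z'.1).symm.trans e
        have hrev := rev4 (a := a) (b := b) (v := v) (α := α) z'
        rw [hrev] at k1
        have hrev1 : rs α 4 (rev (nx a b v α z' 4)).1 = (rev z').1 := congrArg Prod.fst hrev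
        have hrev2 : (rev (nx a b v α z' 4)).2 - 2 * oS a b v 4 *
          cr (dd a b) (G (rev (nx a b v α z' 4)).1 (nS α 4)) = (rev z').2 := congrArg Prod.snd hrev
        rw [hrev1, hrev2] at k2
        rcases h.en z' hz' with ⟨z'', hz'', j'', hj'', rfl⟩ | ⟨k, hk⟩
        · have := k2 j'' (revExit hc hs z'' j'' hj'')
          subst this
          exact noO z'' hz'' ((sq_rs α 0 (by decide) z''.1).symm.trans e') (Or.inl ⟨hj'', hz'⟩)
        · have := k1 k ((hRE z' (h.al z' hz')).2 k (h.enA z' k hk))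
          exact noO z' hz' e' (Or.inr (Or.inr ⟨k, hk, on01 k this⟩))
    · have := gb.1 k ((hRE z (h.al z hz)).2 k (h.enA z k hk))
      exact noO z hz e (Or.inr (Or.inr ⟨k, hk, on01 k this⟩))
  have hall := h.conn (fun z => z.1.1 ^ 2 = z0.1.1 ^ 2) (by
    intro z hz j hj hn
    by_cases h3 : j = 3
    · subst h3
      constructor
      · intro e
        exact absurd hj (fun hj => clB z hz e hj)
      · intro e
        exact absurd e (fun e => clA z hz hj hn e)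
    · have := sq_rs α j h3 z.1
      show z.1.1 ^ 2 = z0.1.1 ^ 2 ↔ (rs α j z.1).1 ^ 2 = z0.1.1 ^ 2
      rw [this]) ⟨z0, hz0, rfl⟩
  obtain ⟨z, hz, hze, -⟩ := hcut
  exact clB z hz (hall z hz) hze

theorem noCut (h : PS a b v α q Z Ex En) (ha : 0.99 < a) (ha' : a < 1.01) (hb : 1.72 < b) (hb' : b < 1.75)
    (h1 : 0.75 < α) (h2 : α < 0.82) (hs : 0 < Real.sin α) (hc : 0 < Real.cos α)
    (hne : ∀ z ∈ Z, dt (dd a b) (G z.1 (nS α 3)) ≠ 0)
    (hnorm : ∀ z ∈ Z, z.1.1.re ^ 2 + z.1.1.im ^ 2 = 1)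
    (hGB : ∀ (i : St) (u : ℝ), Al q i →
      |dt (dd a b) (G i Complex.I)| ≤ 0.7 * |dt (dd a b) (G i 1)| → dt (dd a b) (G i (nS α 3)) < 0 →
      min (uu a b i (vS a b v α 3)) (uu a b i (vS a b v α 4)) ≤ u →
      u ≤ max (uu a b i (vS a b v α 3)) (uu a b i (vS a b v α 4)) → GBp a b v α i u)
    (hRE : ∀ z : St × ℝ, Al q z.1 → Al q (rev z).1 ∧
      ∀ k, AtEntry a b v α z k → AtExit a b v α (rev z) k) :
    ¬ ∃ z ∈ Z, Exit a b v α z.1 z.2 3 ∧ nx a b v α z 3 ∈ Z := by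
  intro hcut
  have all : ∀ z ∈ Z, LA a b z.1.1 := by
    intro z hz
    by_contra hno
    obtain ⟨z', hz', e, ho⟩ := P2 h hs hc hne z hz
    rcases ho with ho | ho
    · exact hno (LA_sq e (h.o0 z' hz' ho).1)
    · obtain ⟨hB, z'', hz'', e''⟩ := h.o1 z' hz' ho
      have hBz : BA a b z.1.1 := BA_sq e hB
      have e3 : z''.1.1 ^ 2 = conj (z.1.1 ^ 2) := e''.trans (by rw [e])
      rcases lt_trichotomy (z.1.1.re * z.1.1.im) 0 with hneg | h0 | hpos
      · obtain ⟨q1, q2, q3⟩ := sq_conj _ _ e3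
        have hB'' : BA a b z''.1.1 := by
          unfold BA at *
          rw [q1, q2]; exact hBz
        have : Sh a b z''.1.1 := Sh_of ha ha' hb hb' (fun hh => hno (LA_conj e3 hh)) hB'' (by rw [q3]; linarith)
        exact hno (LA_conj e3 (P3 h hc.ne' hs.ne' hGB hRE hcut z'' hz'' this))
      · unfold LA at hno
        unfold BA at hBz
        push Not at hno
        rcases mul_eq_zero.mp h0 with h0 | h0
        · rw [h0] at hBz
          have := mul_nonneg (sq_nonneg a) (sq_nonneg z.1.1.im)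
          norm_num at hBz
          linarith
        · rw [h0] at hno
          have hre : 0 < z.1.1.re ^ 2 := by
            have := hnorm z hz
            rw [h0] at this
            linarith
          have : 0 < a ^ 2 * z.1.1.re ^ 2 := mul_pos (by positivity) hre
          norm_num at hno
          linarith
      · exact hno (P3 h hc.ne' hs.ne' hGB hRE hcut z hz (Sh_of ha ha' hb hb' hno hBz hpos))
  obtain ⟨z, hz, hzx, hn⟩ := hcut
  exact cut_LA ha ha' hb hb' h1 h2 z.1 (hnorm z hz) (all z hz) (all _ hn)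

theorem al_norm {i : St} (hq : q ≠ 0) (h : Al q i) : i.1.re ^ 2 + i.1.im ^ 2 = 1 := by
  unfold Al at h
  have h1 : ‖i.1‖ = 1 := by
    have : ‖i.1‖ ^ (2 * q) = 1 := by rw [← norm_pow, h, norm_one]
    exact (pow_eq_one_iff_of_nonneg (norm_nonneg _) (by omega)).mp this
  have h2 := Complex.sq_norm i.1
  rw [h1, Complex.normSq_apply] at h2
  linarith

theorem allC0 (h : PS a b v α q Z Ex En) (hq : Odd q) (hs : 0 < Real.sin α) (hc : 0 < Real.cos α)
    (hne : ∀ z ∈ Z, dt (dd a b) (G z.1 (nS α 3)) ≠ 0)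
    (hno : ¬ ∃ z ∈ Z, Exit a b v α z.1 z.2 3 ∧ nx a b v α z 3 ∈ Z) : ∀ z ∈ Z, C0 z.1 := by
  intro z hz
  have hall := h.conn (fun y => y.1.1 ^ 2 = z.1.1 ^ 2) (by
    intro y hy j hj hn
    have h3 : j ≠ 3 := by
      rintro rfl
      exact hno ⟨y, hy, hj, hn⟩
    have := sq_rs α j h3 y.1
    show y.1.1 ^ 2 = z.1.1 ^ 2 ↔ (rs α j y.1).1 ^ 2 = z.1.1 ^ 2
    rw [this]) ⟨z, hz, rfl⟩
  obtain ⟨z', hz', e, ho⟩ := P2 h hs hc hne z hz
  have hex : ∃ y ∈ Z, y.1.1 ^ 2 = conj (z'.1.1 ^ 2) := by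
    rcases ho with ho | ho
    · exact (h.o0 z' hz' ho).2
    · exact (h.o1 z' hz' ho).2
  obtain ⟨y, hy, hye⟩ := hex
  have h1 : z.1.1 ^ 2 = conj (z.1.1 ^ 2) := by
    rw [← e, ← hye, e]
    exact (hall y hy).symm
  have hq0 : q ≠ 0 := by
    rintro rfl
    exact absurd hq (by decide)
  have hn := al_norm hq0 (h.al z hz)
  have hA : (z.1.1 ^ 2) ^ q = 1 := by
    rw [← pow_mul]; exact h.al z hz
  have him : (z.1.1 ^ 2).im = 0 := Complex.conj_eq_iff_im.mp h1.symm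
  have h2 : (z.1.1 ^ 2).re = 1 ∨ (z.1.1 ^ 2).re = -1 := by
    have k1 : (z.1.1 ^ 2).re = z.1.1.re ^ 2 - z.1.1.im ^ 2 := by simp [pow_two]
    have k2 : (z.1.1 ^ 2).im = 2 * (z.1.1.re * z.1.1.im) := by simp [pow_two]; ring
    rw [k2] at him
    have k3 : z.1.1.re * z.1.1.im = 0 := by linarith
    rcases mul_eq_zero.mp k3 with h0 | h0
    · right; rw [k1]; rw [h0] at hn ⊢; linarith
    · left; rw [k1]; rw [h0] at hn ⊢; linarith
  show z.1.1 ^ 2 = 1
  rcases h2 with h2 | h2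
  · apply Complex.ext
    · simpa using h2
    · simpa using him
  · exfalso
    have h3 : z.1.1 ^ 2 = -1 := by
      apply Complex.ext
      · simpa using h2
      · simpa using him
    rw [h3, hq.neg_one_pow] at hA
    norm_num at hA

/-! ### sequences of chords -/

theorem rtg_seq {A : Type} {r : A → A → Prop} {x y : A} (h : ReflTransGen r x y) :
    ∃ (N : ℕ) (f : ℕ → A), f 0 = x ∧ f N = y ∧ ∀ k < N, r (f k) (f (k + 1)) := by
  induction h using ReflTransGen.head_induction_on with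
  | refl => exact ⟨0, fun _ => y, rfl, rfl, by simp⟩
  | @head x' z' hab _ ih =>
    obtain ⟨N, f, h0, hN, hs⟩ := ih
    refine ⟨N + 1, fun k => Nat.casesOn k x' (fun k => f k), rfl, hN, ?_⟩
    intro k hk
    cases k with
    | zero => simpa [h0] using hab
    | succ k => exact hs k (by omega)

theorem rtg_seq2 {A : Type} {r : A → A → Prop} {x z y : A} (h : ReflTransGen r x z)
    (h' : ReflTransGen r z y) :
    ∃ (N m : ℕ) (f : ℕ → A), m ≤ N ∧ f 0 = x ∧ f m = z ∧ f N = y ∧ ∀ k < N, r (f k) (f (k + 1)) := by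
  induction h using ReflTransGen.head_induction_on with
  | refl =>
    obtain ⟨N, f, h0, hN, hs⟩ := rtg_seq h'
    exact ⟨N, 0, f, Nat.zero_le _, h0, h0, hN, hs⟩
  | @head x' z' hab _ ih =>
    obtain ⟨N, m, f, hm, h0, hm', hN, hs⟩ := ih
    refine ⟨N + 1, m + 1, fun k => Nat.casesOn k x' (fun k => f k), by omega, rfl, hm', hN, ?_⟩
    intro k hk
    cases k with
    | zero => simpa [h0] using hab
    | succ k => exact hs k (by omega)

theorem G0 (α : ℝ) (i : St) : (G i (nS α 0)) ^ 2 = i.1 ^ 2 := by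
  obtain ⟨w, τ⟩ := i
  cases τ <;> simp [G, nS]

theorem G1 (α : ℝ) (i : St) : (G i (nS α 1)) ^ 2 = -i.1 ^ 2 := by
  obtain ⟨w, τ⟩ := i
  cases τ <;> simp [G, nS, mul_pow]

theorem dd_pos {a b : ℝ} (ha : 0 < a) {n : ℂ} (h : 0 < dt (dd a b) n) : 0 < a * n.re + b * n.im := by
  have hL : 0 < √(a ^ 2 + b ^ 2) := Real.sqrt_pos.mpr (by positivity)
  have e : dt (dd a b) n = (a * n.re + b * n.im) / √(a ^ 2 + b ^ 2) := by
    simp [dt, dd]; ring
  rw [e] at h
  exact (div_pos_iff_of_pos_right hL).mp h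

theorem mkPS (ha : 0 < a) {f : ℕ → St × ℝ} {N : ℕ} {jj : ℕ → Fin 5}
    (hstep : ∀ k < N, Exit a b v α (f k).1 (f k).2 (jj k) ∧ f (k + 1) = nx a b v α (f k) (jj k))
    (hal : ∀ k ≤ N, Al q (f k).1) (Ex En : St × ℝ → Fin 5 → Prop)
    (hexA : ∀ z k, Ex z k → AtExit a b v α z k) (henA : ∀ z k, En z k → AtEntry a b v α z k)
    (hlast : (∃ k, Ex (f N) k) ∨ (f N = f 0 ∧ 1 ≤ N))
    (hfirst : (∃ k, En (f 0) k) ∨ (f N = f 0 ∧ 1 ≤ N))
    (Oc : Fin 5 → ℂ → Prop)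
    (hocc : ∀ s, ∀ z, (∃ k ≤ N, f k = z) → O a b v α {z | ∃ k ≤ N, f k = z} Ex En s z →
      ∃ n, Oc s n ∧ (n = G z.1 (nS α s) ∨ n = -G z.1 (nS α s)))
    (hocc' : ∀ s n, Oc s n → ∃ z, (∃ k ≤ N, f k = z) ∧ (n = G z.1 (nS α s) ∨ n = -G z.1 (nS α s)))
    (al1 : ∀ s n, Oc s n → 0 < dt (dd a b) n) (al2 : ∀ n, Oc 0 n → Oc 0 (conj n))
    (al3 : ∀ n, Oc 1 n → Oc 1 (-conj n)) :
    PS a b v α q {z | ∃ k ≤ N, f k = z} Ex En := by
  refine ⟨?_, ?_, hexA, ?_, henA, ?_, ?_, ?_⟩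
  · rintro z ⟨k, hk, rfl⟩
    exact hal k hk
  · rintro z ⟨k, hk, rfl⟩
    rcases Nat.lt_or_ge k N with h | h
    · exact Or.inl ⟨jj k, (hstep k h).1, k + 1, h, (hstep k h).2⟩
    · have hkN : k = N := le_antisymm hk h
      subst hkN
      rcases hlast with hl | ⟨he, hN⟩
      · exact Or.inr hl
      · left
        rw [he]
        exact ⟨jj 0, (hstep 0 hN).1, 1, hN, (hstep 0 hN).2⟩
  · rintro z ⟨k, hk, rfl⟩
    rcases k with _ | m
    · rcases hfirst with hl | ⟨he, hN⟩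
      · exact Or.inr hl
      · left
        have h1 := hstep (N - 1) (by omega)
        refine ⟨f (N - 1), ⟨N - 1, by omega, rfl⟩, jj (N - 1), h1.1, ?_⟩
        rw [← h1.2, Nat.sub_add_cancel hN, he]
    · exact Or.inl ⟨f m, ⟨m, by omega, rfl⟩, jj m, (hstep m (by omega)).1, (hstep m (by omega)).2⟩
  · intro z hz ho
    obtain ⟨n, hn, hnz⟩ := hocc 0 z hz ho
    have hsq : n ^ 2 = z.1.1 ^ 2 := by
      rcases hnz with rfl | rfl
      · exact G0 α z.1
      · rw [neg_sq]; exact G0 α z.1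
    have p1 := dd_pos ha (al1 0 n hn)
    have p2 := dd_pos ha (al1 0 _ (al2 n hn))
    simp only [Complex.conj_re, Complex.conj_im] at p2
    refine ⟨LA_sq hsq ?_, ?_⟩
    · unfold LA
      nlinarith [mul_pos p1 p2]
    · obtain ⟨z', hz', hn'⟩ := hocc' 0 _ (al2 n hn)
      refine ⟨z', hz', ?_⟩
      have h1 : (conj n) ^ 2 = z'.1.1 ^ 2 := by
        rcases hn' with h | h
        · rw [h]; exact G0 α z'.1
        · rw [h, neg_sq]; exact G0 α z'.1
      rw [← h1, ← hsq, map_pow]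
  · intro z hz ho
    obtain ⟨n, hn, hnz⟩ := hocc 1 z hz ho
    have hsq : n ^ 2 = -z.1.1 ^ 2 := by
      rcases hnz with rfl | rfl
      · exact G1 α z.1
      · rw [neg_sq]; exact G1 α z.1
    have p1 := dd_pos ha (al1 1 n hn)
    have p2 := dd_pos ha (al1 1 _ (al3 n hn))
    simp only [Complex.neg_re, Complex.neg_im, Complex.conj_re, Complex.conj_im] at p2
    have hI : (Complex.I * n) ^ 2 = z.1.1 ^ 2 := by
      rw [mul_pow, Complex.I_sq, hsq]; ring
    refine ⟨BA_sq hI ?_, ?_⟩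
    · unfold BA
      simp only [Complex.mul_re, Complex.mul_im, Complex.I_re, Complex.I_im]
      nlinarith [mul_pos p1 p2]
    · obtain ⟨z', hz', hn'⟩ := hocc' 1 _ (al3 n hn)
      refine ⟨z', hz', ?_⟩
      have h1 : (-conj n) ^ 2 = -z'.1.1 ^ 2 := by
        rcases hn' with h | h
        · rw [h]; exact G1 α z'.1
        · rw [h, neg_sq]; exact G1 α z'.1
      have h2 : z.1.1 ^ 2 = -n ^ 2 := by rw [hsq]; ring
      have h3 : z'.1.1 ^ 2 = -(-conj n) ^ 2 := by rw [h1]; ring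
      rw [h2, h3, map_neg, map_pow]
      ring
  · intro P hP hex z hz
    have key : ∀ k ≤ N, (P (f 0) ↔ P (f k)) := by
      intro k
      induction k with
      | zero => intro _; exact Iff.rfl
      | succ k ih =>
        intro hk
        have h1 := hstep k (by omega)
        have h2 := hP (f k) ⟨k, by omega, rfl⟩ (jj k) h1.1 ⟨k + 1, hk, h1.2⟩
        rw [← h1.2] at h2
        exact (ih (by omega)).trans h2
    obtain ⟨y, ⟨k, hk, rfl⟩, hPy⟩ := hex
    obtain ⟨m, hm, rfl⟩ := hz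
    exact (key m hm).mp ((key k hk).mpr hPy)

theorem tele {f : ℕ → St × ℝ} {N : ℕ} {jj : ℕ → Fin 5}
    (hstep : ∀ k < N, Exit a b v α (f k).1 (f k).2 (jj k) ∧ f (k + 1) = nx a b v α (f k) (jj k)) :
    ∀ m ≤ N, (f m).2 = (f 0).2 - ∑ k ∈ Finset.range m, 2 * oS a b v (jj k) *
      cr (dd a b) (G (f k).1 (nS α (jj k))) := by
  intro m
  induction m with
  | zero => intro _; simp
  | succ m ih =>
    intro hm
    rw [Finset.sum_range_succ, (hstep m (by omega)).2]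
    show (f m).2 - _ = _
    rw [ih (by omega)]
    ring

theorem t_NS : S_EX → S_RE → S_AL → S_GB → S_NS := by
  intro hEX hRE hAL hGB a b v α h q hR
  obtain ⟨hok, -, hqp, hq5, -⟩ := id hR
  obtain ⟨ha, ha', hb, hb', hv, hv', hα, hα'⟩ := hok
  have hpi := Real.pi_gt_d2
  have hs : 0 < Real.sin α := Real.sin_pos_of_pos_of_lt_pi (by linarith) (by linarith)
  have hc : 0 < Real.cos α := Real.cos_pos_of_mem_Ioo ⟨by linarith, by linarith⟩
  have hq0 : q ≠ 0 := by omega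
  have hodd : Odd q := hqp.odd_of_ne_two (by omega)
  have hGB' : ∀ (i : St) (u : ℝ), Al q i →
      |dt (dd a b) (G i Complex.I)| ≤ 0.7 * |dt (dd a b) (G i 1)| → dt (dd a b) (G i (nS α 3)) < 0 →
      min (uu a b i (vS a b v α 3)) (uu a b i (vS a b v α 4)) ≤ u →
      u ≤ max (uu a b i (vS a b v α 3)) (uu a b i (vS a b v α 4)) → GBp a b v α i u :=
    fun i u h1 h2 h3 h4 h5 => hGB a b v α h q hR i u h1 h2 h3 h4 h5
  have hRE' : ∀ z : St × ℝ, Al q z.1 → Al q (rev z).1 ∧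
      ∀ k, AtEntry a b v α z k → AtExit a b v α (rev z) k :=
    fun z hz => ⟨(hRE a b v α h q hR z z hz).2.1, (hRE a b v α h q hR z z hz).2.2.2⟩
  have hne' : ∀ i : St, Al q i → dt (dd a b) (G i (nS α 3)) ≠ 0 :=
    fun i hi => (hEX a b v α h q hR i 0 hi).2.2.2.2.2.2.2.2 3
  have huniq : ∀ (i : St) (u : ℝ), Al q i → ∀ j j', Exit a b v α i u j → Exit a b v α i u j' → j = j' :=
    fun i u hi => (hEX a b v α h q hR i u hi).2.1
  have hAlrs : ∀ (i : St) (u : ℝ), Al q i → ∀ j, Exit a b v α i u j → Al q (rs α j i) :=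
    fun i u hi j hj => ((hEX a b v α h q hR i u hi).2.2.1 j hj).2.1
  have hnoex : ∀ (z : St × ℝ), Al q z.1 → ∀ k, AtExit a b v α z k → ¬ ∃ j, Exit a b v α z.1 z.2 j :=
    fun z hi k hk => (hEX a b v α h q hR z.1 z.2 hi).2.2.2.1 k hk
  have conc : ∀ (Z : Set (St × ℝ)) (Ex En : St × ℝ → Fin 5 → Prop), PS a b v α q Z Ex En →
      ∀ z ∈ Z, C0 z.1 := by
    intro Z Ex En hPS
    have hne : ∀ z ∈ Z, dt (dd a b) (G z.1 (nS α 3)) ≠ 0 := fun z hz => hne' z.1 (hPS.al z hz)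
    exact allC0 hPS hodd hs hc hne (noCut hPS ha ha' hb hb' hα hα' hs hc hne
      (fun z hz => al_norm hq0 (hPS.al z hz)) hGB' hRE')
  -- sequences
  have hseq : ∀ (N : ℕ) (f : ℕ → St × ℝ), Al q (f 0).1 → (∀ k < N, Stq a b v α (f k) (f (k + 1))) →
      ∃ jj : ℕ → Fin 5, (∀ k < N, Exit a b v α (f k).1 (f k).2 (jj k) ∧
        f (k + 1) = nx a b v α (f k) (jj k)) ∧ ∀ k ≤ N, Al q (f k).1 := by
    intro N f h0 hst
    have h1 : ∀ k, ∃ j, k < N → Exit a b v α (f k).1 (f k).2 j ∧ f (k + 1) = nx a b v α (f k) j := by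
      intro k
      by_cases hk : k < N
      · obtain ⟨j, hj, hj'⟩ := hst k hk
        exact ⟨j, fun _ => ⟨hj, hj'⟩⟩
      · exact ⟨0, fun h => absurd h hk⟩
    choose jj hjj using h1
    refine ⟨jj, fun k hk => hjj k hk, ?_⟩
    intro k
    induction k with
    | zero => intro _; exact h0
    | succ k ih =>
      intro hk
      obtain ⟨hj, hj'⟩ := hjj k (by omega)
      rw [hj']
      exact hAlrs _ _ (ih (by omega)) _ hj
  constructor
  · intro z0 z z1 hal0 h01 h12 hen hex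
    obtain ⟨w, hw⟩ := hen
    obtain ⟨w', hw'⟩ := hex
    obtain ⟨N, m, f, hm, hf0, hfm, hfN, hst⟩ := rtg_seq2 h01 h12
    subst hf0
    subst hfN
    obtain ⟨jj, hstep, hal⟩ := hseq N f hal0 hst
    have hPth : Pth a b α N (fun k => (f k).1) jj := by
      intro k hk
      obtain ⟨h1, h2⟩ := hstep k hk
      exact ⟨congrArg Prod.fst h2, h1.1⟩
    have hClo : Clo a b v α N (fun k => (f k).1) jj (some w) (some w') := by
      right
      refine ⟨w, w', rfl, rfl, ?_, ?_, ?_⟩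
      · intro s hs'
        rcases hs' with rfl | rfl
        · exact hw.2.1
        · have := hw.2.2
          rwa [add_sub_cancel_right] at this
      · intro s hs'
        rcases hs' with rfl | rfl
        · exact hw'.2.1
        · have := hw'.2.2
          rwa [add_sub_cancel_right] at this
      · have h1 := tele hstep N le_rfl
        rw [← hw.1, ← hw'.1, h1]
    obtain ⟨al1, al2, al3⟩ := hAL a b v α h q hR N (fun k => (f k).1) jj (some w) (some w') hal0 hPth hClo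
    have hPS := mkPS (q := q) (by linarith) hstep hal (fun z k => z = f N ∧ k = w') (fun z k => z = f 0 ∧ k = w)
      (by rintro z k ⟨rfl, rfl⟩; exact hw') (by rintro z k ⟨rfl, rfl⟩; exact hw)
      (Or.inl ⟨w', rfl, rfl⟩) (Or.inl ⟨w, rfl, rfl⟩)
      (Occ α N (fun k => (f k).1) jj (some w) (some w'))
      (by
        rintro s z ⟨k, hk, rfl⟩ (⟨h1, h2⟩ | ⟨k', ⟨h1, rfl⟩, h2⟩ | ⟨k', ⟨h1, rfl⟩, h2⟩)
        · rcases Nat.lt_or_ge k N with hlt | hge
          · have := huniq _ _ (hal k hk) _ _ (hstep k hlt).1 h1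
            exact ⟨_, Or.inl ⟨k, hlt, this, rfl⟩, Or.inl rfl⟩
          · have hkN : k = N := le_antisymm hk hge
            subst hkN
            exact absurd ⟨s, h1⟩ (hnoex _ (hal k le_rfl) _ hw')
        · exact ⟨_, Or.inr (Or.inr ⟨k', rfl, h2, rfl⟩), Or.inl (by rw [h1])⟩
        · exact ⟨_, Or.inr (Or.inl ⟨k', rfl, h2, rfl⟩), Or.inr (by rw [h1])⟩)
      (by
        rintro s n (⟨k, hk, h1, h2⟩ | ⟨w1, h1, h2, h3⟩ | ⟨w1, h1, h2, h3⟩)
        · exact ⟨f k, ⟨k, hk.le, rfl⟩, Or.inl h2⟩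
        · exact ⟨f 0, ⟨0, Nat.zero_le _, rfl⟩, Or.inr h3⟩
        · exact ⟨f N, ⟨N, le_rfl, rfl⟩, Or.inl h3⟩)
      al1 al2 al3
    exact conc _ _ _ hPS z ⟨m, hm, hfm⟩
  · intro z hal0 hzz
    obtain ⟨y, hy, hyz⟩ := TransGen.head'_iff.mp hzz
    obtain ⟨N', g, hg0, hgN, hgs⟩ := rtg_seq hyz
    obtain ⟨N, f, hN, hf0, hfN, hst⟩ : ∃ (N : ℕ) (f : ℕ → St × ℝ), 1 ≤ N ∧ f 0 = z ∧ f N = z ∧
        ∀ k < N, Stq a b v α (f k) (f (k + 1)) := by
      refine ⟨N' + 1, fun k => Nat.casesOn k z (fun k => g k), by omega, rfl, hgN, ?_⟩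
      intro k hk
      cases k with
      | zero => simpa [hg0] using hy
      | succ k => exact hgs k (by omega)
    obtain ⟨jj, hstep, hal⟩ := hseq N f (by rw [hf0]; exact hal0) hst
    have he : f N = f 0 := hfN.trans hf0.symm
    have hPth : Pth a b α N (fun k => (f k).1) jj := by
      intro k hk
      obtain ⟨h1, h2⟩ := hstep k hk
      exact ⟨congrArg Prod.fst h2, h1.1⟩
    have hClo : Clo a b v α N (fun k => (f k).1) jj none none := by
      left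
      refine ⟨rfl, rfl, hN, congrArg Prod.fst he, ?_⟩
      have h1 := tele hstep N le_rfl
      rw [he] at h1
      linarith
    obtain ⟨al1, al2, al3⟩ := hAL a b v α h q hR N (fun k => (f k).1) jj none none
      (hal 0 (Nat.zero_le _)) hPth hClo
    have hPS := mkPS (q := q) (by linarith) hstep hal (fun _ _ => False) (fun _ _ => False)
      (by intro z k hf; exact hf.elim) (by intro z k hf; exact hf.elim)
      (Or.inr ⟨he, hN⟩) (Or.inr ⟨he, hN⟩)
      (Occ α N (fun k => (f k).1) jj none none)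
      (by
        rintro s z ⟨k, hk, rfl⟩ (⟨h1, h2⟩ | ⟨k', h1, h2⟩ | ⟨k', h1, h2⟩)
        · rcases Nat.lt_or_ge k N with hlt | hge
          · have := huniq _ _ (hal k hk) _ _ (hstep k hlt).1 h1
            exact ⟨_, Or.inl ⟨k, hlt, this, rfl⟩, Or.inl rfl⟩
          · have hkN : k = N := le_antisymm hk hge
            subst hkN
            rw [he] at h1
            have := huniq _ _ (hal 0 (Nat.zero_le _)) _ _ (hstep 0 hN).1 h1
            exact ⟨_, Or.inl ⟨0, hN, this, rfl⟩, Or.inl (by rw [he])⟩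
        · exact h1.elim
        · exact h1.elim)
      (by
        rintro s n (⟨k, hk, h1, h2⟩ | ⟨w1, h1, h2, h3⟩ | ⟨w1, h1, h2, h3⟩)
        · exact ⟨f k, ⟨k, hk.le, rfl⟩, Or.inl h2⟩
        · exact absurd h1 (by simp)
        · exact absurd h1 (by simp))
      al1 al2 al3
    exact conc _ _ _ hPS z ⟨0, Nat.zero_le _, hf0⟩

end Pool.Agent.U588.BM.NS
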