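import Pool.Agent.U856.BM.Stm2

set_option autoImplicit false

/-!
# Project BM, package NS, first part: reflections of states
-/

open Set Filter Topology ComplexConjugate

namespace Pool.Agent.U588.BM.NS

open Pool.Agent.U856.BM Relation

theorem dt_sub (d x y : ℂ) (c : ℝ) : dt d (x - (c : ℂ) * y) = dt d x - c * dt d y := by
  simp [dt]; ring

theorem cr_sub (d x y : ℂ) (c : ℝ) : cr d (x - (c : ℂ) * y) = cr d x - c * cr d y := by
  simp [cr]; ring

theorem dt_neg (d x : ℂ) : dt d (-x) = -dt d x := by simp [dt]; ring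

theorem cr_neg (d x : ℂ) : cr d (-x) = -cr d x := by simp [cr]; ring

theorem G_refl (n : ℂ) (hn : n.re ^ 2 + n.im ^ 2 = 1) (i : St) (x : ℂ) :
    G (-(i.1 * (if i.2 then n ^ 2 else conj (n ^ 2))), !i.2) x =
      G i x - ((2 * dt n x : ℝ) : ℂ) * G i n := by
  obtain ⟨w, τ⟩ := i
  cases τ
  · have key : -(conj (n ^ 2)) * x = conj x - ((2 * dt n x : ℝ) : ℂ) * conj n := by
      apply Complex.ext
      · simp [dt, pow_two]
        linear_combination x.re * hn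
      · simp [dt, pow_two]
        linear_combination (-x.im) * hn
    simp only [G, Bool.not_false, if_true, Bool.false_eq_true, if_false]
    linear_combination w * key
  · have key : -(n ^ 2) * conj x = x - ((2 * dt n x : ℝ) : ℂ) * n := by
      apply Complex.ext
      · simp [dt, pow_two]
        linear_combination x.re * hn
      · simp [dt, pow_two]
        linear_combination x.im * hn
    simp only [G, Bool.not_true, if_true, Bool.false_eq_true, if_false]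
    linear_combination w * key

theorem nS_norm (α : ℝ) (j : Fin 5) : (nS α j).re ^ 2 + (nS α j).im ^ 2 = 1 := by
  fin_cases j <;> simp [nS]

theorem dt_self (α : ℝ) (j : Fin 5) : dt (nS α j) (nS α j) = 1 := by
  have := nS_norm α j
  unfold dt
  linarith

theorem G_rs (α : ℝ) (j : Fin 5) (i : St) (x : ℂ) :
    G (rs α j i) x = G i x - ((2 * dt (nS α j) x : ℝ) : ℂ) * G i (nS α j) :=
  G_refl _ (nS_norm α j) i x

theorem dt_rs (d : ℂ) (α : ℝ) (j : Fin 5) (i : St) (x : ℂ) :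
    dt d (G (rs α j i) x) = dt d (G i x) - 2 * dt (nS α j) x * dt d (G i (nS α j)) := by
  rw [G_rs, dt_sub]

theorem cr_rs (d : ℂ) (α : ℝ) (j : Fin 5) (i : St) (x : ℂ) :
    cr d (G (rs α j i) x) = cr d (G i x) - 2 * dt (nS α j) x * cr d (G i (nS α j)) := by
  rw [G_rs, cr_sub]

theorem dt_rs_self (d : ℂ) (α : ℝ) (j : Fin 5) (i : St) :
    dt d (G (rs α j i) (nS α j)) = -dt d (G i (nS α j)) := by
  rw [dt_rs, dt_self]; ring

theorem cr_rs_self (d : ℂ) (α : ℝ) (j : Fin 5) (i : St) :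
    cr d (G (rs α j i) (nS α j)) = -cr d (G i (nS α j)) := by
  rw [cr_rs, dt_self]; ring

theorem vtx1 (a b v α : ℝ) (hc : Real.cos α ≠ 0) (hs : Real.sin α ≠ 0) (j : Fin 5) :
    dt (nS α j) (vS a b v α j) = oS a b v j := by
  fin_cases j <;> simp [nS, vS, oS, dt]
  field_simp

theorem vtx2 (a b v α : ℝ) (hc : Real.cos α ≠ 0) (hs : Real.sin α ≠ 0) (j : Fin 5) :
    dt (nS α j) (vS a b v α (j + 1)) = oS a b v j := by
  fin_cases j <;> simp [nS, vS, oS, dt]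
  field_simp

theorem uu_rs1 (a b v α : ℝ) (hc : Real.cos α ≠ 0) (hs : Real.sin α ≠ 0) (j : Fin 5) (i : St) :
    uu a b (rs α j i) (vS a b v α j) =
      uu a b i (vS a b v α j) - 2 * oS a b v j * cr (dd a b) (G i (nS α j)) := by
  unfold uu
  rw [cr_rs, vtx1 a b v α hc hs]

theorem uu_rs2 (a b v α : ℝ) (hc : Real.cos α ≠ 0) (hs : Real.sin α ≠ 0) (j : Fin 5) (i : St) :
    uu a b (rs α j i) (vS a b v α (j + 1)) =
      uu a b i (vS a b v α (j + 1)) - 2 * oS a b v j * cr (dd a b) (G i (nS α j)) := by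
  unfold uu
  rw [cr_rs, vtx2 a b v α hc hs]

noncomputable def E1 (a b : ℝ) (i : St) : ℝ := dt (dd a b) (G i 1)
noncomputable def E2 (a b : ℝ) (i : St) : ℝ := dt (dd a b) (G i Complex.I)

theorem dn0 (a b α : ℝ) (i : St) : dt (dd a b) (G i (nS α 0)) = -E1 a b i := by
  obtain ⟨w, τ⟩ := i
  cases τ <;> simp [E1, G, nS, dt] <;> ring

theorem dn1 (a b α : ℝ) (i : St) : dt (dd a b) (G i (nS α 1)) = -E2 a b i := by
  obtain ⟨w, τ⟩ := i
  cases τ <;> simp [E2, G, nS, dt] <;> ring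

theorem dn2 (a b α : ℝ) (i : St) : dt (dd a b) (G i (nS α 2)) = E1 a b i := by
  obtain ⟨w, τ⟩ := i
  cases τ <;> simp [E1, G, nS, dt]

theorem dn3 (a b α : ℝ) (i : St) :
    dt (dd a b) (G i (nS α 3)) = Real.sin α * E1 a b i + Real.cos α * E2 a b i := by
  obtain ⟨w, τ⟩ := i
  cases τ <;> simp [E1, E2, G, nS, dt] <;> ring

theorem dn4 (a b α : ℝ) (i : St) : dt (dd a b) (G i (nS α 4)) = E2 a b i := by
  obtain ⟨w, τ⟩ := i
  cases τ <;> simp [E2, G, nS, dt]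

theorem E1_rs (a b α : ℝ) (j : Fin 5) (i : St) :
    E1 a b (rs α j i) = E1 a b i - 2 * (nS α j).re * dt (dd a b) (G i (nS α j)) := by
  unfold E1
  rw [dt_rs]
  simp [dt]

theorem E2_rs (a b α : ℝ) (j : Fin 5) (i : St) :
    E2 a b (rs α j i) = E2 a b i - 2 * (nS α j).im * dt (dd a b) (G i (nS α j)) := by
  unfold E2
  rw [dt_rs]
  simp [dt]

theorem E1_0 (a b α : ℝ) (i : St) : E1 a b (rs α 0 i) = -E1 a b i := by
  rw [E1_rs, dn0]; simp [nS]; ring
theorem E1_1 (a b α : ℝ) (i : St) : E1 a b (rs α 1 i) = E1 a b i := by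
  rw [E1_rs, dn1]; simp [nS]
theorem E1_2 (a b α : ℝ) (i : St) : E1 a b (rs α 2 i) = -E1 a b i := by
  rw [E1_rs, dn2]; simp [nS]; ring
theorem E1_4 (a b α : ℝ) (i : St) : E1 a b (rs α 4 i) = E1 a b i := by
  rw [E1_rs, dn4]; simp [nS]
theorem E2_0 (a b α : ℝ) (i : St) : E2 a b (rs α 0 i) = E2 a b i := by
  rw [E2_rs, dn0]; simp [nS]
theorem E2_1 (a b α : ℝ) (i : St) : E2 a b (rs α 1 i) = -E2 a b i := by
  rw [E2_rs, dn1]; simp [nS]; ring
theorem E2_2 (a b α : ℝ) (i : St) : E2 a b (rs α 2 i) = E2 a b i := by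
  rw [E2_rs, dn2]; simp [nS]
theorem E2_4 (a b α : ℝ) (i : St) : E2 a b (rs α 4 i) = -E2 a b i := by
  rw [E2_rs, dn4]; simp [nS]; ring

theorem sq_rs (α : ℝ) (j : Fin 5) (hj : j ≠ 3) (i : St) : (rs α j i).1 ^ 2 = i.1 ^ 2 := by
  obtain ⟨w, τ⟩ := i
  fin_cases j
  · cases τ <;> simp [rs, nS]
  · cases τ <;> simp [rs, nS]
  · cases τ <;> simp [rs, nS]
  · exact absurd rfl hj
  · cases τ <;> simp [rs, nS]

/-! ### classes -/

def LA (a b : ℝ) (w : ℂ) : Prop := b ^ 2 * w.im ^ 2 < a ^ 2 * w.re ^ 2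
def BA (a b : ℝ) (w : ℂ) : Prop := a ^ 2 * w.im ^ 2 < b ^ 2 * w.re ^ 2
def Sh (a b : ℝ) (w : ℂ) : Prop := |b * w.re - a * w.im| ≤ 0.7 * |a * w.re + b * w.im|

theorem sq_eq (w w' : ℂ) (h : w' ^ 2 = w ^ 2) :
    w'.re ^ 2 = w.re ^ 2 ∧ w'.im ^ 2 = w.im ^ 2 ∧ w'.re * w'.im = w.re * w.im := by
  rcases sq_eq_sq_iff_eq_or_eq_neg.mp h with rfl | rfl
  · exact ⟨rfl, rfl, rfl⟩
  · simp

theorem sq_conj (w w' : ℂ) (h : w' ^ 2 = conj (w ^ 2)) :
    w'.re ^ 2 = w.re ^ 2 ∧ w'.im ^ 2 = w.im ^ 2 ∧ w'.re * w'.im = -(w.re * w.im) := by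
  rw [map_pow] at h
  obtain ⟨h1, h2, h3⟩ := sq_eq _ _ h
  refine ⟨by simpa using h1, by simpa using h2, by simpa using h3⟩

theorem LA_sq {a b : ℝ} {w w' : ℂ} (h : w' ^ 2 = w ^ 2) (hL : LA a b w') : LA a b w := by
  obtain ⟨h1, h2, -⟩ := sq_eq _ _ h
  unfold LA at *
  rw [← h1, ← h2]; exact hL

theorem BA_sq {a b : ℝ} {w w' : ℂ} (h : w' ^ 2 = w ^ 2) (hL : BA a b w') : BA a b w := by
  obtain ⟨h1, h2, -⟩ := sq_eq _ _ h
  unfold BA at *
  rw [← h1, ← h2]; exact hL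

theorem LA_conj {a b : ℝ} {w w' : ℂ} (h : w' ^ 2 = conj (w ^ 2)) (hL : LA a b w') : LA a b w := by
  obtain ⟨h1, h2, -⟩ := sq_conj _ _ h
  unfold LA at *
  rw [← h1, ← h2]; exact hL

theorem Sh_sq {a b : ℝ} {w w' : ℂ} (h : w' ^ 2 = w ^ 2) (hS : Sh a b w') : Sh a b w := by
  rcases sq_eq_sq_iff_eq_or_eq_neg.mp h with rfl | rfl
  · exact hS
  · unfold Sh at *
    have e1 : |b * w.re - a * w.im| = |b * (-w).re - a * (-w).im| := by
      rw [← abs_neg]; congr 1; simp; ring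
    have e2 : |a * w.re + b * w.im| = |a * (-w).re + b * (-w).im| := by
      rw [← abs_neg]; congr 1; simp; ring
    rw [e1, e2]; exact hS

theorem Sh_of {a b : ℝ} (ha : 0.99 < a) (ha' : a < 1.01) (hb : 1.72 < b) (hb' : b < 1.75) {w : ℂ}
    (h1 : ¬ LA a b w) (h2 : BA a b w) (h3 : 0 < w.re * w.im) : Sh a b w := by
  wlog hp : 0 < w.re generalizing w
  · have h0 : w.re ≠ 0 := fun h => by simp [h] at h3
    have hp' : 0 < (-w).re := by
      simp only [Complex.neg_re]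
      rcases lt_or_gt_of_ne h0 with h | h
      · linarith
      · exact absurd h hp
    have := this (w := -w) (fun h => h1 (LA_sq (by ring) h)) (BA_sq (by ring) h2) (by simpa using h3) hp'
    exact Sh_sq (by ring) this
  have hr : 0 < w.im := by
    rcases lt_trichotomy w.im 0 with h | h | h
    · nlinarith
    · rw [h] at h3; simp at h3
    · exact h
  unfold LA at h1
  unfold BA at h2
  push Not at h1
  have ha0 : 0 < a := by linarith
  have hb0 : 0 < b := by linarith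
  have k1 : a * w.re ≤ b * w.im :=
    (pow_le_pow_iff_left₀ (by positivity) (by positivity) two_ne_zero).mp (by nlinarith)
  have k2 : a * w.im < b * w.re := by
    apply lt_of_pow_lt_pow_left₀ 2 (by positivity)
    nlinarith
  unfold Sh
  rw [abs_of_pos (by linarith), abs_of_pos (by positivity)]
  have k3 : a * ((b - 0.7 * a) * w.re) ≤ a * ((a + 0.7 * b) * w.im) := by
    have k4 : (b - 0.7 * a) * (a * w.re) ≤ (b - 0.7 * a) * (b * w.im) :=
      mul_le_mul_of_nonneg_left k1 (by linarith)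
    have k5 : (b - 0.7 * a) * b ≤ a * (a + 0.7 * b) := by nlinarith
    have k6 : (b - 0.7 * a) * b * w.im ≤ a * (a + 0.7 * b) * w.im :=
      mul_le_mul_of_nonneg_right k5 hr.le
    nlinarith
  have k7 := le_of_mul_le_mul_left k3 ha0
  linarith

theorem E1_eq (a b : ℝ) (i : St) :
    E1 a b i = (a * i.1.re + b * i.1.im) / √(a ^ 2 + b ^ 2) := by
  obtain ⟨w, τ⟩ := i
  cases τ <;> simp [E1, G, dt, dd] <;> ring

theorem E2_eq (a b : ℝ) (i : St) :
    |E2 a b i| = |b * i.1.re - a * i.1.im| / √(a ^ 2 + b ^ 2) := by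
  obtain ⟨w, τ⟩ := i
  have hL : 0 ≤ √(a ^ 2 + b ^ 2) := Real.sqrt_nonneg _
  have e : |b * w.re - a * w.im| / √(a ^ 2 + b ^ 2) = |(b * w.re - a * w.im) / √(a ^ 2 + b ^ 2)| := by
    rw [abs_div, abs_of_nonneg hL]
  show |E2 a b (w, τ)| = |b * w.re - a * w.im| / √(a ^ 2 + b ^ 2)
  rw [e]
  cases τ
  · have : E2 a b (w, false) = -((b * w.re - a * w.im) / √(a ^ 2 + b ^ 2)) := by
      simp [E2, G, dt, dd]; ring
    rw [this, abs_neg]
  · congr 1
    simp [E2, G, dt, dd]; ring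

theorem sh_E {a b : ℝ} {i : St} (h : Sh a b i.1) :
    |dt (dd a b) (G i Complex.I)| ≤ 0.7 * |dt (dd a b) (G i 1)| := by
  have h1 := E1_eq a b i
  have h2 := E2_eq a b i
  unfold E1 at h1
  unfold E2 at h2
  rw [h2, h1, abs_div, abs_of_nonneg (Real.sqrt_nonneg (a ^ 2 + b ^ 2)), ← mul_div_assoc]
  exact div_le_div_of_nonneg_right h (Real.sqrt_nonneg _)

theorem c_bound {α : ℝ} (h1 : 0.75 < α) (h2 : α < 0.82) : |Real.sin α ^ 2 - Real.cos α ^ 2| ≤ 0.1 := by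
  have e : Real.sin α ^ 2 - Real.cos α ^ 2 = -Real.sin (Real.pi / 2 - 2 * α) := by
    rw [Real.sin_pi_div_two_sub, Real.cos_two_mul']
    ring
  rw [e, abs_neg]
  refine Real.abs_sin_le_abs.trans ?_
  have := Real.pi_gt_d2
  have := Real.pi_lt_d2
  rw [abs_le]
  constructor <;> linarith

theorem cut_e1 (α : ℝ) (i : St) (hi : i.1.re ^ 2 + i.1.im ^ 2 = 1) :
    i.1.re * (rs α 3 i).1.re + i.1.im * (rs α 3 i).1.im = -(Real.sin α ^ 2 - Real.cos α ^ 2) := by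
  obtain ⟨w, τ⟩ := i
  cases τ
  · simp [rs, nS, pow_two] at hi ⊢
    linear_combination (Real.cos α ^ 2 - Real.sin α ^ 2) * hi
  · simp [rs, nS, pow_two] at hi ⊢
    linear_combination (Real.cos α ^ 2 - Real.sin α ^ 2) * hi

theorem cut_e2 (α : ℝ) (i : St) (hi : i.1.re ^ 2 + i.1.im ^ 2 = 1) :
    (rs α 3 i).1.re ^ 2 + (rs α 3 i).1.im ^ 2 = 1 := by
  have hsc2 : (Real.sin α ^ 2 - Real.cos α ^ 2) ^ 2 + (2 * Real.sin α * Real.cos α) ^ 2 = 1 := by
    have : (Real.sin α ^ 2 - Real.cos α ^ 2) ^ 2 + (2 * Real.sin α * Real.cos α) ^ 2 =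
      (Real.sin α ^ 2 + Real.cos α ^ 2) ^ 2 := by ring
    rw [this, Real.sin_sq_add_cos_sq]; norm_num
  obtain ⟨w, τ⟩ := i
  cases τ
  · simp [rs, nS, pow_two] at hi ⊢
    linear_combination ((Real.sin α ^ 2 - Real.cos α ^ 2) ^ 2 + (2 * Real.sin α * Real.cos α) ^ 2) * hi + hsc2
  · simp [rs, nS, pow_two] at hi ⊢
    linear_combination ((Real.sin α ^ 2 - Real.cos α ^ 2) ^ 2 + (2 * Real.sin α * Real.cos α) ^ 2) * hi + hsc2

theorem cut_num {a b p r p' r' c : ℝ} (ha : 0.99 < a) (ha' : a < 1.01) (hb : 1.72 < b) (hb' : b < 1.75)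
    (hc : |c| ≤ 0.1) (h1 : p ^ 2 + r ^ 2 = 1) (h2 : p' ^ 2 + r' ^ 2 = 1) (h3 : p * p' + r * r' = -c)
    (hL : b ^ 2 * r ^ 2 < a ^ 2 * p ^ 2) (hL' : b ^ 2 * r' ^ 2 < a ^ 2 * p' ^ 2) : False := by
  have hc := abs_le.1 hc
  have a2 : a ^ 2 < 1.03 := by nlinarith
  have b2 : 2.9 < b ^ 2 := by nlinarith
  have k1 : r ^ 2 < 0.3 := by
    by_contra h
    push Not at h
    have : 2.9 * r ^ 2 ≤ b ^ 2 * r ^ 2 := mul_le_mul_of_nonneg_right b2.le (sq_nonneg _)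
    have : a ^ 2 * p ^ 2 ≤ 1.03 * p ^ 2 := mul_le_mul_of_nonneg_right a2.le (sq_nonneg _)
    linarith
  have k2 : r' ^ 2 < 0.3 := by
    by_contra h
    push Not at h
    have : 2.9 * r' ^ 2 ≤ b ^ 2 * r' ^ 2 := mul_le_mul_of_nonneg_right b2.le (sq_nonneg _)
    have : a ^ 2 * p' ^ 2 ≤ 1.03 * p' ^ 2 := mul_le_mul_of_nonneg_right a2.le (sq_nonneg _)
    linarith
  have k3 : 0.7 < p ^ 2 := by linarith
  have k4 : 0.7 < p' ^ 2 := by linarith
  have k5 : (r * r') ^ 2 ≤ 0.3 * 0.3 := by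
    rw [mul_pow]
    exact mul_le_mul k1.le k2.le (sq_nonneg _) (by norm_num)
  have k6 : 0.7 * 0.7 ≤ (p * p') ^ 2 := by
    rw [mul_pow]
    exact mul_le_mul k3.le k4.le (by norm_num) (sq_nonneg _)
  have k7 : |r * r'| ≤ 0.3 := by
    apply abs_le_of_sq_le_sq _ (by norm_num)
    linarith
  have k9 := abs_le.1 k7
  have k10 : |p * p'| ≤ 0.4 := by
    rw [abs_le]
    constructor <;> linarith
  have k11 : (p * p') ^ 2 ≤ 0.4 ^ 2 := sq_le_sq' (abs_le.1 k10).1 (abs_le.1 k10).2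
  norm_num at k11 k6
  linarith

/-- a reflection in the cut does not join two allowed classes -/
theorem cut_LA {a b α : ℝ} (ha : 0.99 < a) (ha' : a < 1.01) (hb : 1.72 < b) (hb' : b < 1.75)
    (h1 : 0.75 < α) (h2 : α < 0.82) (i : St) (hi : i.1.re ^ 2 + i.1.im ^ 2 = 1)
    (hL : LA a b i.1) (hL' : LA a b (rs α 3 i).1) : False :=
  cut_num ha ha' hb hb' (c_bound h1 h2) hi (cut_e2 α i hi) (cut_e1 α i hi) hL hL'

end Pool.Agent.U588.BM.NS
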